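import Mathlib

/-!
# The topologized Kuratowski convergence over the box metric is not Hausdorff
-/

namespace Pool.Agent.Results.MP_3b4475_gt.NotHausdorff

open MeasureTheory Set Filter Topology
open scoped ENNReal NNReal

/-- The interval `I = [0, 1)`. -/
abbrev UI : Type := Set.Ico (0 : ℝ) 1

/-- Lebesgue measure on `I`. -/
noncomputable def lam : Measure UI := Measure.comap (Subtype.val : UI → ℝ) volume

/-- mm-spaces: complete separable metric spaces with a Borel probability measure. -/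
structure MMSpace where
  /-- points -/
  X : Type
  [met : MetricSpace X]
  [compl : CompleteSpace X]
  [sep : TopologicalSpace.SeparableSpace X]
  [meas : MeasurableSpace X]
  [bor : BorelSpace X]
  /-- the measure -/
  μ : Measure X
  [prob : IsProbabilityMeasure μ]

attribute [instance] MMSpace.met MMSpace.compl MMSpace.sep MMSpace.meas MMSpace.bor MMSpace.prob

/-- mm-isomorphism: an isometry between the supports which maps one measure to the other. -/
def Iso (A B : MMSpace) : Prop :=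
  ∃ f : A.μ.support ≃ᵢ B.μ.support,
    Measure.map (fun x : A.μ.support => ((f x : B.μ.support) : B.X))
      (A.μ.comap (Subtype.val : A.μ.support → A.X)) = B.μ

/-- The set of mm-spaces up to mm-isomorphism. -/
def MM : Type 1 := Quot Iso

/-- Parameters of an mm-space. -/
def IsParam (A : MMSpace) (φ : UI → A.X) : Prop :=
  Measurable φ ∧ Measure.map φ lam = A.μ

/-- The condition on `ε` in the definition of the box distance. -/
def BoxRel (ε : ℝ≥0) (x y : MM) : Prop :=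
  ∃ A B : MMSpace, Quot.mk Iso A = x ∧ Quot.mk Iso B = y ∧
    ∃ (φ : UI → A.X) (ψ : UI → B.X), IsParam A φ ∧ IsParam B ψ ∧
      ∃ I₀ : Set UI, MeasurableSet I₀ ∧ 1 - (ε : ℝ) ≤ lam.real I₀ ∧
        ∀ s ∈ I₀, ∀ t ∈ I₀, |dist (φ s) (φ t) - dist (ψ s) (ψ t)| ≤ ε

/-- The box distance: the infimum of all admissible `ε`. -/
noncomputable def box (x y : MM) : ℝ≥0∞ := ⨅ (ε : ℝ≥0) (_ : BoxRel ε x y), (ε : ℝ≥0∞)

/-- The box-closed sets of mm-spaces. -/
def Closeds : Type 1 :=
  {A : Set MM // ∀ x, (∀ ε : ℝ≥0∞, 0 < ε → ∃ a ∈ A, box x a < ε) → x ∈ A}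

/-- Upper limit of a net of closed sets. -/
def Ls {ι : Type 1} [Preorder ι] (A : ι → Closeds) : Set MM :=
  {x | ∀ ε : ℝ≥0∞, 0 < ε → ∀ i, ∃ j, i ≤ j ∧ ∃ a ∈ (A j).1, box x a < ε}

/-- Lower limit of a net of closed sets. -/
def Li {ι : Type 1} [Preorder ι] (A : ι → Closeds) : Set MM :=
  {x | ∀ ε : ℝ≥0∞, 0 < ε → ∃ i, ∀ j, i ≤ j → ∃ a ∈ (A j).1, box x a < ε}

/-- Kuratowski-Painlevé convergence of a net of closed sets. -/
def KP {ι : Type 1} [Preorder ι] (A : ι → Closeds) (B : Closeds) : Prop :=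
  Ls A ⊆ B.1 ∧ B.1 ⊆ Li A

/-- All Kuratowski-Painlevé convergent nets converge in the topology `t`. -/
def AllConverge (t : TopologicalSpace Closeds) : Prop :=
  ∀ (ι : Type 1) [Preorder ι] [IsDirectedOrder ι] [Nonempty ι] (A : ι → Closeds) (B : Closeds),
    KP A B → ∀ U : Set Closeds, IsOpen[t] U → B ∈ U → ∃ i, ∀ j, i ≤ j → A j ∈ U

/-- The topologization: the finest topology with `AllConverge` (in Mathlib's order on topologies
the finest one is the infimum). -/
@[reducible] def tauK : TopologicalSpace Closeds := sInf {t | AllConverge t}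

/-- The topology whose open sets are all sets which eventually contain every net converging to
one of their points. -/
@[reducible] def tau0 : TopologicalSpace Closeds where
  IsOpen U := ∀ (ι : Type 1) [Preorder ι] [IsDirectedOrder ι] [Nonempty ι] (A : ι → Closeds)
    (B : Closeds), KP A B → B ∈ U → ∃ i, ∀ j, i ≤ j → A j ∈ U
  isOpen_univ := by
    intro ι _ _ hne A B _ _
    exact ⟨Classical.choice hne, fun _ _ => Set.mem_univ _⟩
  isOpen_inter := by
    intro U V hU hV ι _ _ _ A B hAB hB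
    obtain ⟨i, hi⟩ := hU ι A B hAB hB.1
    obtain ⟨j, hj⟩ := hV ι A B hAB hB.2
    obtain ⟨k, hik, hjk⟩ := exists_ge_ge i j
    exact ⟨k, fun l hl => ⟨hi l (hik.trans hl), hj l (hjk.trans hl)⟩⟩
  isOpen_sUnion := by
    intro S hS ι _ _ _ A B hAB hB
    obtain ⟨U, hUS, hBU⟩ := hB
    obtain ⟨i, hi⟩ := hS U hUS ι A B hAB hBU
    exact ⟨i, fun j hj => ⟨U, hUS, hi j hj⟩⟩

lemma tau0_conv : AllConverge tau0 := by
  intro ι _ _ _ A B hAB U hU hB
  exact hU ι A B hAB hB

lemma tauK_eq : tauK = tau0 := by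
  apply le_antisymm
  · exact sInf_le tau0_conv
  · refine le_sInf ?_
    intro t ht U hU ι _ _ _ A B hAB hB
    exact ht ι A B hAB U hU hB

instance : IsProbabilityMeasure lam := by
  constructor
  rw [lam, MeasurableEmbedding.comap_apply (MeasurableEmbedding.subtype_coe measurableSet_Ico),
    Set.image_univ, Subtype.range_coe, Real.volume_Ico]
  simp

/-! ### Transfer of sets -/

lemma pushSet {Ω : Type} [MeasurableSpace Ω] (ν : Measure Ω) [IsProbabilityMeasure ν]
    (A B : MMSpace) (φ : Ω → A.X) (ψ : Ω → B.X) (hφ : Measurable φ) (hψ : Measurable ψ)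
    (hφm : Measure.map φ ν = A.μ) (hψm : Measure.map ψ ν = B.μ) (I₀ : Set Ω)
    (hI : MeasurableSet I₀) (ε : ℝ) (hε : 1 - ε ≤ ν.real I₀)
    (hd : ∀ s ∈ I₀, ∀ t ∈ I₀, |dist (φ s) (φ t) - dist (ψ s) (ψ t)| ≤ ε)
    (E : Set A.X) (hE : MeasurableSet E) :
    ∃ F : Set B.X, MeasurableSet F ∧ A.μ.real E - ε ≤ B.μ.real F ∧
      I₀ ∩ φ ⁻¹' E ⊆ ψ ⁻¹' F ∧
      ∀ r', (∀ x ∈ E, ∀ y ∈ E, dist x y ≤ r') → ∀ x ∈ F, ∀ y ∈ F, dist x y ≤ r' + ε := by
  refine ⟨closure (ψ '' (I₀ ∩ φ ⁻¹' E)), isClosed_closure.measurableSet, ?_, ?_, ?_⟩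
  · have h1 : A.μ.real E = ν.real (φ ⁻¹' E) := by
      rw [← hφm, Measure.real, Measure.map_apply hφ hE, Measure.real]
    have h2 : B.μ.real (closure (ψ '' (I₀ ∩ φ ⁻¹' E))) =
        ν.real (ψ ⁻¹' closure (ψ '' (I₀ ∩ φ ⁻¹' E))) := by
      rw [← hψm, Measure.real, Measure.map_apply hψ isClosed_closure.measurableSet, Measure.real]
    rw [h1, h2]
    have h3 : ν.real (I₀ ∩ φ ⁻¹' E) ≤ ν.real (ψ ⁻¹' closure (ψ '' (I₀ ∩ φ ⁻¹' E))) := by
      refine measureReal_mono ?_
      intro s hs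
      exact subset_closure ⟨s, hs, rfl⟩
    have h4 : ν.real (φ ⁻¹' E) ≤ ν.real (I₀ ∩ φ ⁻¹' E) + ν.real I₀ᶜ := by
      refine (measureReal_mono ?_).trans (measureReal_union_le _ _)
      intro s hs
      by_cases h : s ∈ I₀
      · exact Or.inl ⟨h, hs⟩
      · exact Or.inr h
    have h5 : ν.real I₀ᶜ = 1 - ν.real I₀ := by
      rw [probReal_compl_eq_one_sub hI]
    linarith
  · intro s hs
    exact subset_closure ⟨s, hs, rfl⟩
  · intro r' hr' x hx y hy
    have hcl : closure (ψ '' (I₀ ∩ φ ⁻¹' E)) ×ˢ closure (ψ '' (I₀ ∩ φ ⁻¹' E)) ⊆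
        {p : B.X × B.X | dist p.1 p.2 ≤ r' + ε} := by
      rw [← closure_prod_eq]
      refine closure_minimal ?_ (isClosed_le continuous_dist continuous_const)
      rintro ⟨a, b⟩ ⟨⟨s, hs, rfl⟩, ⟨t, ht, rfl⟩⟩
      have h1 := hd s hs.1 t ht.1
      have h2 := hr' _ hs.2 _ ht.2
      have h3 := abs_le.1 h1
      simp only [Set.mem_ofPred_eq]
      linarith [h3.1, h3.2]
    exact hcl (Set.mk_mem_prod hx hy)

/-- Two mm-spaces related by a common parametrization up to `ε`. -/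
def RelF (ε : ℝ) (A B : MMSpace) : Prop :=
  ∀ E : ℕ → Set A.X, (∀ i, MeasurableSet (E i)) → ∃ F : ℕ → Set B.X, (∀ i, MeasurableSet (F i)) ∧
    (∀ N, A.μ.real (⋃ i ≤ N, E i) - ε ≤ B.μ.real (⋃ i ≤ N, F i)) ∧
      ∀ i r', (∀ x ∈ E i, ∀ y ∈ E i, dist x y ≤ r') → ∀ x ∈ F i, ∀ y ∈ F i, dist x y ≤ r' + ε

/-- Version for one set. -/
def Rel (ε : ℝ) (A B : MMSpace) : Prop :=
  ∀ E : Set A.X, MeasurableSet E → ∃ F : Set B.X, MeasurableSet F ∧ A.μ.real E - ε ≤ B.μ.real F ∧
      ∀ r', (∀ x ∈ E, ∀ y ∈ E, dist x y ≤ r') → ∀ x ∈ F, ∀ y ∈ F, dist x y ≤ r' + ε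

lemma RelF.rel {ε : ℝ} {A B : MMSpace} (h : RelF ε A B) : Rel ε A B := by
  intro E hE
  obtain ⟨F, hF, hm, hd⟩ := h (fun _ => E) (fun _ => hE)
  refine ⟨F 0, hF 0, ?_, fun r' hr => hd 0 r' hr⟩
  have := hm 0
  simpa using this

lemma pushFam {Ω : Type} [MeasurableSpace Ω] (ν : Measure Ω) [IsProbabilityMeasure ν]
    (A B : MMSpace) (φ : Ω → A.X) (ψ : Ω → B.X) (hφ : Measurable φ) (hψ : Measurable ψ)
    (hφm : Measure.map φ ν = A.μ) (hψm : Measure.map ψ ν = B.μ) (I₀ : Set Ω)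
    (hI : MeasurableSet I₀) (ε : ℝ) (hε : 1 - ε ≤ ν.real I₀)
    (hd : ∀ s ∈ I₀, ∀ t ∈ I₀, |dist (φ s) (φ t) - dist (ψ s) (ψ t)| ≤ ε) : RelF ε A B := by
  intro E hE
  choose F hF _ hsub hdF using fun i => pushSet ν A B φ ψ hφ hψ hφm hψm I₀ hI ε hε hd (E i) (hE i)
  refine ⟨F, hF, ?_, hdF⟩
  intro N
  have hEU : MeasurableSet (⋃ i ≤ N, E i) :=
    MeasurableSet.iUnion fun i => MeasurableSet.iUnion fun _ => hE i
  have hFU : MeasurableSet (⋃ i ≤ N, F i) :=
    MeasurableSet.iUnion fun i => MeasurableSet.iUnion fun _ => hF i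
  have h1 : A.μ.real (⋃ i ≤ N, E i) = ν.real (φ ⁻¹' (⋃ i ≤ N, E i)) := by
    rw [← hφm, Measure.real, Measure.map_apply hφ hEU, Measure.real]
  have h2 : B.μ.real (⋃ i ≤ N, F i) = ν.real (ψ ⁻¹' (⋃ i ≤ N, F i)) := by
    rw [← hψm, Measure.real, Measure.map_apply hψ hFU, Measure.real]
  rw [h1, h2]
  have h3 : ν.real (I₀ ∩ φ ⁻¹' (⋃ i ≤ N, E i)) ≤ ν.real (ψ ⁻¹' (⋃ i ≤ N, F i)) := by
    refine measureReal_mono ?_
    rintro s ⟨hs, hs'⟩
    simp only [Set.mem_preimage, Set.mem_iUnion] at hs' ⊢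
    obtain ⟨i, hi, hs'⟩ := hs'
    exact ⟨i, hi, hsub i ⟨hs, hs'⟩⟩
  have h4 : ν.real (φ ⁻¹' (⋃ i ≤ N, E i)) ≤
      ν.real (I₀ ∩ φ ⁻¹' (⋃ i ≤ N, E i)) + ν.real I₀ᶜ := by
    refine (measureReal_mono ?_).trans (measureReal_union_le _ _)
    intro s hs
    by_cases h : s ∈ I₀
    · exact Or.inl ⟨h, hs⟩
    · exact Or.inr h
  have h5 : ν.real I₀ᶜ = 1 - ν.real I₀ := by
    rw [probReal_compl_eq_one_sub hI]
  linarith

lemma relF_of_iso {A B : MMSpace} (h : Iso A B) : RelF 0 A B ∧ RelF 0 B A := by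
  obtain ⟨f, hf⟩ := h
  have hemb : MeasurableEmbedding (Subtype.val : A.μ.support → A.X) :=
    MeasurableEmbedding.subtype_coe A.μ.isClosed_support.measurableSet
  have hmap : Measure.map (Subtype.val : A.μ.support → A.X) (A.μ.comap Subtype.val) = A.μ := by
    rw [hemb.map_comap, Subtype.range_coe]
    refine Measure.restrict_eq_self_of_ae_mem ?_
    exact Measure.support_mem_ae
  have hprob : IsProbabilityMeasure (A.μ.comap (Subtype.val : A.μ.support → A.X)) := by
    constructor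
    have := congrArg (fun m => m Set.univ) hmap
    simp only [Measure.map_apply measurable_subtype_coe MeasurableSet.univ, Set.preimage_univ,
      measure_univ] at this
    exact this
  have hfm : Measurable (fun x : A.μ.support => ((f x : B.μ.support) : B.X)) :=
    (continuous_subtype_val.comp f.continuous).measurable
  have hd : ∀ s t : A.μ.support, dist (s : A.X) (t : A.X) =
      dist ((f s : B.μ.support) : B.X) ((f t : B.μ.support) : B.X) := by
    intro s t
    have := f.isometry.dist_eq s t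
    rw [Subtype.dist_eq, Subtype.dist_eq] at this
    exact this.symm
  constructor
  · exact pushFam (A.μ.comap (Subtype.val : A.μ.support → A.X)) A B
      Subtype.val _ measurable_subtype_coe hfm hmap hf Set.univ MeasurableSet.univ 0
      (by simp) (by intro s _ t _; rw [hd s t]; simp)
  · exact pushFam (A.μ.comap (Subtype.val : A.μ.support → A.X)) B A
      _ Subtype.val hfm measurable_subtype_coe hf hmap Set.univ MeasurableSet.univ 0
      (by simp) (by intro s _ t _; rw [hd s t]; simp)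

lemma rel_of_iso {A B : MMSpace} (h : Iso A B) : Rel 0 A B ∧ Rel 0 B A :=
  ⟨(relF_of_iso h).1.rel, (relF_of_iso h).2.rel⟩

/-! ### Two conditions -/

/-- Most of the space has diameter at most `r`. -/
def DD (r : ℝ) (A : MMSpace) : Prop :=
  ∀ ε : ℝ, 0 < ε → ∃ E : Set A.X, MeasurableSet E ∧ 1 - ε ≤ A.μ.real E ∧
    ∀ x ∈ E, ∀ y ∈ E, dist x y ≤ r + ε

/-- Sets of diameter less than `r` have measure at most `c`. -/
def PP (c r : ℝ) (A : MMSpace) : Prop :=
  ∀ E : Set A.X, MeasurableSet E → ∀ r' < r, (∀ x ∈ E, ∀ y ∈ E, dist x y ≤ r') → A.μ.real E ≤ c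

lemma DD_of_rel {r : ℝ} {B : MMSpace}
    (h : ∀ δ : ℝ, 0 < δ → ∃ A, DD r A ∧ ∃ ε < δ, 0 ≤ ε ∧ Rel ε A B) : DD r B := by
  intro ε hε
  obtain ⟨A, hA, ε', hε', h0, hR⟩ := h (ε / 2) (by linarith)
  obtain ⟨E, hE, hm, hdE⟩ := hA (ε / 2) (by linarith)
  obtain ⟨F, hF, hmF, hdF⟩ := hR E hE
  refine ⟨F, hF, by linarith, ?_⟩
  intro x hx y hy
  have := hdF _ hdE x hx y hy
  linarith

lemma PP_of_rel {c r : ℝ} {B : MMSpace}
    (h : ∀ δ : ℝ, 0 < δ → ∃ A, PP c r A ∧ ∃ ε < δ, 0 ≤ ε ∧ Rel ε B A) : PP c r B := by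
  intro E hE r' hr' hd
  refine le_of_forall_pos_le_add ?_
  intro η hη
  obtain ⟨A, hA, ε', hε', h0, hR⟩ := h (min η (r - r')) (lt_min hη (by linarith))
  obtain ⟨F, hF, hmF, hdF⟩ := hR E hE
  have h1 := hA F hF (r' + ε') (by have := min_le_right η (r - r'); linarith) (hdF r' hd)
  have := min_le_left η (r - r')
  linarith

lemma DD_iso {r : ℝ} {A B : MMSpace} (h : Iso A B) : DD r A ↔ DD r B := by
  obtain ⟨h1, h2⟩ := rel_of_iso h
  exact ⟨fun hA => DD_of_rel fun δ hδ => ⟨A, hA, 0, hδ, le_rfl, h1⟩,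
    fun hB => DD_of_rel fun δ hδ => ⟨B, hB, 0, hδ, le_rfl, h2⟩⟩

lemma PP_iso {c r : ℝ} {A B : MMSpace} (h : Iso A B) : PP c r A ↔ PP c r B := by
  obtain ⟨h1, h2⟩ := rel_of_iso h
  exact ⟨fun hA => PP_of_rel fun δ hδ => ⟨A, hA, 0, hδ, le_rfl, h2⟩,
    fun hB => PP_of_rel fun δ hδ => ⟨B, hB, 0, hδ, le_rfl, h1⟩⟩

def DM (r : ℝ) : MM → Prop := Quot.lift (DD r) (fun _ _ h => propext (DD_iso h))
def PM (c r : ℝ) : MM → Prop := Quot.lift (PP c r) (fun _ _ h => propext (PP_iso h))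

lemma exists_of_box_lt {x y : MM} {ε : ℝ≥0∞} (h : box x y < ε) :
    ∃ ε' : ℝ≥0, (ε' : ℝ≥0∞) < ε ∧ BoxRel ε' x y := by
  unfold box at h
  simp only [iInf_lt_iff] at h
  obtain ⟨ε', h1, h2⟩ := h
  exact ⟨ε', h2, h1⟩

lemma boxRel_rel {ε : ℝ≥0} {x y : MM} (h : BoxRel ε x y) :
    ∃ A B : MMSpace, Quot.mk Iso A = x ∧ Quot.mk Iso B = y ∧ RelF ε A B ∧ RelF ε B A := by
  obtain ⟨A, B, hA, hB, φ, ψ, hφ, hψ, I₀, hI, hm, hd⟩ := h
  refine ⟨A, B, hA, hB, ?_, ?_⟩
  · exact pushFam lam A B φ ψ hφ.1 hψ.1 hφ.2 hψ.2 I₀ hI ε hm hd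
  · exact pushFam lam B A ψ φ hψ.1 hφ.1 hψ.2 hφ.2 I₀ hI ε hm
      (by intro s hs t ht; rw [abs_sub_comm]; exact hd s hs t ht)

lemma RelF.comp {ε δ : ℝ} {A B C : MMSpace} (h1 : RelF ε A B) (h2 : RelF δ B C) :
    RelF (ε + δ) A C := by
  intro E hE
  obtain ⟨F, hF, hm, hd⟩ := h1 E hE
  obtain ⟨G, hG, hm', hd'⟩ := h2 F hF
  refine ⟨G, hG, fun N => by have := hm N; have := hm' N; linarith, ?_⟩
  intro i r' hr x hx y hy
  have := hd' i _ (hd i r' hr) x hx y hy
  linarith

lemma RelF.refl (A : MMSpace) : RelF 0 A A := by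
  intro E hE
  exact ⟨E, hE, fun N => by linarith, fun i r' hr x hx y hy => by have := hr x hx y hy; linarith⟩

lemma rel_of_eq {A B : MMSpace} (h : Quot.mk Iso A = Quot.mk Iso B) :
    RelF 0 A B ∧ RelF 0 B A := by
  have h' := Quot.eqvGen_exact h
  induction h' with
  | rel x y hxy => exact relF_of_iso hxy
  | refl x => exact ⟨RelF.refl x, RelF.refl x⟩
  | symm x y _ ih => exact ⟨(ih (Quot.eqvGen_sound ‹_›)).2, (ih (Quot.eqvGen_sound ‹_›)).1⟩
  | trans x y z _ _ ih1 ih2 =>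
    have a := ih1 (Quot.eqvGen_sound ‹_›)
    have b := ih2 (Quot.eqvGen_sound ‹_›)
    exact ⟨by simpa using a.1.comp b.1, by simpa using b.2.comp a.2⟩

lemma boxRel_relF' {ε : ℝ≥0} {X : MMSpace} {y : MM} (h : BoxRel ε (Quot.mk Iso X) y) :
    ∃ B : MMSpace, Quot.mk Iso B = y ∧ RelF ε X B ∧ RelF ε B X := by
  obtain ⟨A, B, hA, hB, h1, h2⟩ := boxRel_rel h
  obtain ⟨h3, h4⟩ := rel_of_eq hA
  exact ⟨B, hB, by simpa using h4.comp h1, by simpa using h2.comp h3⟩

lemma boxRel_rel' {ε : ℝ≥0} {X : MMSpace} {y : MM} (h : BoxRel ε (Quot.mk Iso X) y) :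
    ∃ B : MMSpace, Quot.mk Iso B = y ∧ Rel ε X B ∧ Rel ε B X := by
  obtain ⟨B, hB, h1, h2⟩ := boxRel_relF' h
  exact ⟨B, hB, h1.rel, h2.rel⟩

lemma lt_of_coe_lt {ε' : ℝ≥0} {δ : ℝ} (h : (ε' : ℝ≥0∞) < ENNReal.ofReal δ) : (ε' : ℝ) < δ := by
  have := (ENNReal.lt_ofReal_iff_toReal_lt (ENNReal.coe_ne_top)).1 h
  simpa using this

lemma DM_closed {r : ℝ} {S : Set MM} (hS : ∀ a ∈ S, DM r a) (x : MM)
    (hx : ∀ ε : ℝ≥0∞, 0 < ε → ∃ a ∈ S, box x a < ε) : DM r x := by
  induction x using Quot.inductionOn with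
  | h X =>
    refine DD_of_rel fun δ hδ => ?_
    obtain ⟨a, ha, hb⟩ := hx (ENNReal.ofReal δ) (by simpa using hδ)
    obtain ⟨ε', h1, h2⟩ := exists_of_box_lt hb
    obtain ⟨A, hA, -, hR⟩ := boxRel_rel' h2
    have := hS a ha
    rw [← hA] at this
    exact ⟨A, this, ε', lt_of_coe_lt h1, ε'.2, hR⟩

lemma PM_closed {c r : ℝ} {S : Set MM} (hS : ∀ a ∈ S, PM c r a) (x : MM)
    (hx : ∀ ε : ℝ≥0∞, 0 < ε → ∃ a ∈ S, box x a < ε) : PM c r x := by
  induction x using Quot.inductionOn with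
  | h X =>
    refine PP_of_rel fun δ hδ => ?_
    obtain ⟨a, ha, hb⟩ := hx (ENNReal.ofReal δ) (by simpa using hδ)
    obtain ⟨ε', h1, h2⟩ := exists_of_box_lt hb
    obtain ⟨A, hA, hR, -⟩ := boxRel_rel' h2
    have := hS a ha
    rw [← hA] at this
    exact ⟨A, this, ε', lt_of_coe_lt h1, ε'.2, hR⟩

/-- The set of mm-spaces of diameter at most `r` which are spread out. -/
def SS (c r : ℝ) : Closeds :=
  ⟨{x | DM r x ∧ PM c r x}, fun x hx =>
    ⟨DM_closed (fun a ha => (show DM r a ∧ PM c r a from ha).1) x hx,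
      PM_closed (fun a ha => (show DM r a ∧ PM c r a from ha).2) x hx⟩⟩

/-! ### The one-point space -/

lemma measure_eq_of_subsingleton {α : Type} [MeasurableSpace α] [Subsingleton α]
    (μ ν : Measure α) [IsProbabilityMeasure μ] [IsProbabilityMeasure ν] : μ = ν := by
  ext s hs
  rcases s.eq_empty_or_nonempty with rfl | ⟨a, ha⟩
  · simp
  · have : s = Set.univ := by
      ext b
      simp only [Set.mem_univ, iff_true]
      rwa [Subsingleton.elim b a]
    rw [this]
    simp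

lemma support_nonempty (X : MMSpace) : X.μ.support.Nonempty := by
  by_contra hcon
  rw [Set.not_nonempty_iff_eq_empty] at hcon
  have := Measure.measure_compl_support (μ := X.μ)
  rw [hcon] at this
  simp at this

/-- The one-point space. -/
noncomputable def star : MMSpace where
  X := PUnit
  μ := Measure.dirac PUnit.unit

instance : Subsingleton star.X := inferInstanceAs (Subsingleton PUnit)

noncomputable def st : MM := Quot.mk Iso star

lemma DM_mono_lim {x : MM} (h : ∀ δ : ℝ, 0 < δ → DM δ x) : DM 0 x := by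
  induction x using Quot.inductionOn with
  | h X =>
    intro ε hε
    obtain ⟨E, hE, hm, hd⟩ := h (ε / 2) (by linarith) (ε / 2) (by linarith)
    exact ⟨E, hE, by linarith, fun x hx y hy => by have := hd x hx y hy; linarith⟩

lemma eq_star_of_DM {x : MM} (h : DM 0 x) : x = st := by
  induction x using Quot.inductionOn with
  | h X =>
    have hD : DD 0 X := h
    obtain ⟨y, hy⟩ := support_nonempty X
    have hsub : ∀ z ∈ X.μ.support, z = y := by
      intro z hz
      by_contra hzy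
      have hpos : 0 < dist z y := dist_pos.2 hzy
      obtain ⟨r, hr0, hr⟩ : ∃ r : ℝ, 0 < r ∧ 4 * r = dist z y :=
        ⟨dist z y / 4, by linarith, by ring⟩
      have h1 : 0 < X.μ.real (Metric.ball z r) := by
        have := (Measure.mem_support_iff_forall z).1 hz _ (Metric.ball_mem_nhds z hr0)
        exact ENNReal.toReal_pos this.ne' (measure_ne_top _ _)
      have h2 : 0 < X.μ.real (Metric.ball y r) := by
        have := (Measure.mem_support_iff_forall y).1 hy _ (Metric.ball_mem_nhds y hr0)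
        exact ENNReal.toReal_pos this.ne' (measure_ne_top _ _)
      obtain ⟨m, hm0, hm1, hm2, hm3⟩ : ∃ m : ℝ, 0 < m ∧ m < X.μ.real (Metric.ball z r) ∧
          m < X.μ.real (Metric.ball y r) ∧ m ≤ r := by
        refine ⟨min (min (X.μ.real (Metric.ball z r) / 2) (X.μ.real (Metric.ball y r) / 2)) r, ?_,
          ?_, ?_, min_le_right _ _⟩
        · exact lt_min (lt_min (by linarith) (by linarith)) hr0
        · have := (min_le_left (min (X.μ.real (Metric.ball z r) / 2)
            (X.μ.real (Metric.ball y r) / 2)) r).trans (min_le_left _ _)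
          linarith
        · have := (min_le_left (min (X.μ.real (Metric.ball z r) / 2)
            (X.μ.real (Metric.ball y r) / 2)) r).trans (min_le_right _ _)
          linarith
      obtain ⟨E, hE, hmE, hd⟩ := hD m hm0
      have hmeet : ∀ w, m < X.μ.real (Metric.ball w r) → ∃ a ∈ E, dist a w < r := by
        intro w hw
        by_contra hcon
        push Not at hcon
        have hdis : Metric.ball w r ⊆ Eᶜ := by
          intro a ha haE
          exact absurd (hcon a haE) (not_le.2 ha)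
        have h3 := measureReal_mono (μ := X.μ) hdis
        rw [probReal_compl_eq_one_sub hE] at h3
        linarith
      obtain ⟨a, haE, ha⟩ := hmeet z hm1
      obtain ⟨b, hbE, hb⟩ := hmeet y hm2
      have h3 := hd a haE b hbE
      have h4 : dist z y ≤ dist a z + dist a b + dist b y := by
        calc dist z y ≤ dist z a + dist a y := dist_triangle _ _ _
          _ ≤ dist z a + (dist a b + dist b y) := by gcongr; exact dist_triangle _ _ _
          _ = _ := by rw [dist_comm z a]; ring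
      linarith
    refine Quot.sound ?_
    obtain ⟨p, hp⟩ := support_nonempty star
    have hsubX : Subsingleton X.μ.support := ⟨fun a b => Subtype.ext ((hsub _ a.2).trans
      (hsub _ b.2).symm)⟩
    have hsubS : Subsingleton star.μ.support := ⟨fun a b => Subtype.ext (Subsingleton.elim _ _)⟩
    let e : X.μ.support ≃ star.μ.support :=
      { toFun := fun _ => ⟨p, hp⟩
        invFun := fun _ => ⟨y, hy⟩
        left_inv := fun a => Subsingleton.elim _ _
        right_inv := fun a => Subsingleton.elim _ _ }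
    refine ⟨⟨e, ?_⟩, ?_⟩
    · exact isometry_subsingleton
    · have hemb : MeasurableEmbedding (Subtype.val : X.μ.support → X.X) :=
        MeasurableEmbedding.subtype_coe X.μ.isClosed_support.measurableSet
      have hprob : IsProbabilityMeasure (X.μ.comap (Subtype.val : X.μ.support → X.X)) := by
        constructor
        rw [hemb.comap_apply, Set.image_univ, Subtype.range_coe]
        exact (prob_compl_eq_zero_iff X.μ.isClosed_support.measurableSet).1
          Measure.measure_compl_support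
      have : IsProbabilityMeasure (Measure.map (fun _ : X.μ.support => p)
          (X.μ.comap (Subtype.val : X.μ.support → X.X))) :=
        Measure.isProbabilityMeasure_map measurable_const.aemeasurable
      exact measure_eq_of_subsingleton _ _

/-! ### The spread spaces -/

/-- A type of points. -/
structure Pt (n : ℕ) where
  /-- index -/
  val : Fin n
deriving DecidableEq

instance (n : ℕ) : Finite (Pt n) :=
  Finite.of_injective Pt.val (by rintro ⟨a⟩ ⟨b⟩ h; cases h; rfl)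

/-- All distances are `r`. -/
@[reducible] def ptMetric (n : ℕ) (r : ℝ) (hr : 0 < r) : MetricSpace (Pt n) where
  dist x y := if x = y then 0 else r
  dist_self x := by simp
  dist_comm x y := by simp only [eq_comm]
  dist_triangle x y z := by
    by_cases h1 : x = z
    · rw [if_pos h1]
      split_ifs <;> linarith
    · rw [if_neg h1]
      by_cases h2 : x = y
      · rw [if_pos h2, if_neg (by rw [← h2]; exact h1)]
        linarith
      · rw [if_neg h2]
        split_ifs <;> linarith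
  eq_of_dist_eq_zero := by
    intro x y h
    by_contra hxy
    rw [if_neg hxy] at h
    exact hr.ne' h

lemma floor_lt (n : ℕ) (s : UI) : ⌊((n + 1 : ℕ) : ℝ) * (s : ℝ)⌋₊ < n + 1 := by
  rw [Nat.floor_lt (mul_nonneg (by positivity) s.2.1)]
  have h1 := s.2.2
  have h2 : (0 : ℝ) < ((n + 1 : ℕ) : ℝ) := by positivity
  nlinarith

/-- The parameter of the spread space. -/
noncomputable def par (n : ℕ) (s : UI) : Pt (n + 1) :=
  ⟨⟨⌊((n + 1 : ℕ) : ℝ) * (s : ℝ)⌋₊, floor_lt n s⟩⟩

lemma par_preimage (n : ℕ) (p : Pt (n + 1)) : par n ⁻¹' {p} =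
    (Subtype.val : UI → ℝ) ⁻¹'
      Set.Ico ((p.val : ℕ) / ((n + 1 : ℕ) : ℝ)) (((p.val : ℕ) + 1) / ((n + 1 : ℕ) : ℝ)) := by
  obtain ⟨⟨j, hj⟩⟩ := p
  have h2 : (0 : ℝ) < ((n + 1 : ℕ) : ℝ) := by positivity
  ext s
  simp only [par, Set.mem_preimage, Set.mem_singleton_iff, Pt.mk.injEq, Fin.mk.injEq, Set.mem_Ico]
  rw [Nat.floor_eq_iff (mul_nonneg h2.le s.2.1), div_le_iff₀ h2, lt_div_iff₀ h2]
  rw [mul_comm]

lemma lam_par (n : ℕ) (p : Pt (n + 1)) : lam (par n ⁻¹' {p}) ≤ ENNReal.ofReal (1 / (n + 1 : ℕ)) := by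
  rw [par_preimage, lam,
    MeasurableEmbedding.comap_apply (MeasurableEmbedding.subtype_coe measurableSet_Ico)]
  refine (measure_mono (Set.image_preimage_subset _ _)).trans ?_
  rw [Real.volume_Ico]
  refine ENNReal.ofReal_le_ofReal (le_of_eq ?_)
  ring

/-- The spread space with `n + 1` points at mutual distance `r`. -/
noncomputable def spr (n : ℕ) (r : ℝ) (hr : 0 < r) : MMSpace :=
  letI : MetricSpace (Pt (n + 1)) := ptMetric (n + 1) r hr
  letI : MeasurableSpace (Pt (n + 1)) := borel _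
  haveI : BorelSpace (Pt (n + 1)) := ⟨rfl⟩
  { X := Pt (n + 1)
    μ := Measure.map (par n) lam
    prob := Measure.isProbabilityMeasure_map (by
      refine Measurable.aemeasurable ?_
      refine measurable_to_countable' ?_
      intro p
      rw [par_preimage]
      exact measurable_subtype_coe measurableSet_Ico) }

/-- The parameter with values in the mm-space. -/
noncomputable def parX (n : ℕ) (r : ℝ) (hr : 0 < r) : UI → (spr n r hr).X := par n

lemma par_meas (n : ℕ) (r : ℝ) (hr : 0 < r) : Measurable (parX n r hr) := by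
  let _i1 : MetricSpace (Pt (n + 1)) := ptMetric (n + 1) r hr
  let _i2 : MeasurableSpace (Pt (n + 1)) := borel _
  have : BorelSpace (Pt (n + 1)) := ⟨rfl⟩
  change Measurable (par n)
  refine measurable_to_countable' ?_
  intro p
  rw [par_preimage]
  exact measurable_subtype_coe measurableSet_Ico

lemma pt_dist_le (n : ℕ) (r : ℝ) (hr : 0 < r) (x y : Pt n) :
    (ptMetric n r hr).dist x y ≤ r := by
  change (if x = y then 0 else r) ≤ r
  split_ifs <;> linarith

lemma pt_dist_eq (n : ℕ) (r : ℝ) (hr : 0 < r) (x y : Pt n) (hne : x ≠ y) :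
    (ptMetric n r hr).dist x y = r := by
  change (if x = y then 0 else r) = r
  rw [if_neg hne]

lemma spr_dist_le (n : ℕ) (r : ℝ) (hr : 0 < r) (x y : (spr n r hr).X) : dist x y ≤ r :=
  pt_dist_le (n + 1) r hr x y

lemma spr_dist_eq (n : ℕ) (r : ℝ) (hr : 0 < r) (x y : (spr n r hr).X) (hne : x ≠ y) :
    dist x y = r :=
  pt_dist_eq (n + 1) r hr x y hne

lemma spr_DD (n : ℕ) (r : ℝ) (hr : 0 < r) : DD r (spr n r hr) := by
  intro ε hε
  refine ⟨Set.univ, MeasurableSet.univ, ?_, ?_⟩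
  · rw [probReal_univ]
    linarith
  · intro x _ y _
    have := spr_dist_le n r hr x y
    linarith

/-- The sequence `1 / (n + 1)`. -/
noncomputable def cc (n : ℕ) : ℝ := 1 / ((n + 1 : ℕ) : ℝ)

lemma cc_pos (n : ℕ) : 0 < cc n := by
  unfold cc
  positivity

lemma exists_cc (δ : ℝ) (hδ : 0 < δ) : ∃ n, ∀ m, n ≤ m → cc m < δ := by
  obtain ⟨n, hn⟩ := exists_nat_one_div_lt hδ
  refine ⟨n, fun m hm => lt_of_le_of_lt ?_ hn⟩
  unfold cc
  push_cast
  gcongr

lemma spr_PP (n : ℕ) (r : ℝ) (hr : 0 < r) : PP (cc n) r (spr n r hr) := by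
  intro E hE r' hr' hd
  rcases E.eq_empty_or_nonempty with rfl | ⟨p, hp⟩
  · rw [measureReal_empty]
    exact (cc_pos n).le
  · have hE' : E = {p} := by
      apply Set.eq_singleton_iff_unique_mem.2 ⟨hp, ?_⟩
      intro q hq
      by_contra hne
      have h1 := hd q hq p hp
      have h2 := spr_dist_eq n r hr q p hne
      linarith
    have h1 : (spr n r hr).μ E = lam (parX n r hr ⁻¹' {p}) := by
      rw [hE'] at hE ⊢
      exact Measure.map_apply (par_meas n r hr) hE
    rw [Measure.real, h1]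
    refine ENNReal.toReal_le_of_le_ofReal (cc_pos n).le ?_
    exact lam_par n p

/-- The point. -/
def pt : star.X := PUnit.unit

lemma boxRel_spr (n : ℕ) (r : ℝ) (hr : 0 < r) :
    BoxRel r.toNNReal st (Quot.mk Iso (spr n r hr)) := by
  refine ⟨star, spr n r hr, rfl, rfl, fun _ => pt, parX n r hr, ⟨measurable_const, ?_⟩,
    ⟨par_meas n r hr, rfl⟩, Set.univ, MeasurableSet.univ, ?_, ?_⟩
  · have : IsProbabilityMeasure (Measure.map (fun _ : UI => pt) lam) :=
      Measure.isProbabilityMeasure_map measurable_const.aemeasurable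
    exact measure_eq_of_subsingleton _ _
  · rw [probReal_univ]
    have : (0 : ℝ) ≤ r.toNNReal := NNReal.coe_nonneg _
    linarith
  · intro s _ t _
    simp only
    rw [dist_self, Real.coe_toNNReal _ hr.le]
    have h := spr_dist_le n r hr (parX n r hr s) (parX n r hr t)
    rw [zero_sub, abs_neg, abs_of_nonneg dist_nonneg]
    exact h

lemma box_spr (n : ℕ) (r : ℝ) (hr : 0 < r) :
    box st (Quot.mk Iso (spr n r hr)) ≤ ENNReal.ofReal r :=
  iInf₂_le (r.toNNReal) (boxRel_spr n r hr)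

lemma spr_mem (n : ℕ) (r : ℝ) (hr : 0 < r) :
    (Quot.mk Iso (spr n r hr) : MM) ∈ (SS (cc n) r).1 :=
  ⟨spr_DD n r hr, spr_PP n r hr⟩

/-- The set consisting of the one-point space. -/
def ST : Closeds :=
  ⟨{x | DM 0 x}, fun x hx => DM_closed (fun a ha => (show DM 0 a from ha)) x hx⟩

lemma st_mem_ST : st ∈ ST.1 := by
  change DD 0 star
  intro ε hε
  refine ⟨Set.univ, MeasurableSet.univ, ?_, ?_⟩
  · rw [probReal_univ]
    linarith
  · intro x _ y _
    rw [Subsingleton.elim x y, dist_self]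
    linarith

/-- The empty closed set. -/
def EE : Closeds := ⟨∅, fun x hx => by
  obtain ⟨a, ha, -⟩ := hx 1 one_pos
  exact ha⟩

/-! ### Convergence -/

lemma exists_cover (X : MMSpace) (r : ℝ) (hr : 0 < r) :
    ∃ (E : ℕ → Set X.X) (N : ℕ), (∀ i, MeasurableSet (E i)) ∧
      (∀ i, ∀ x ∈ E i, ∀ y ∈ E i, dist x y ≤ r / 4) ∧ 3 / 4 < X.μ.real (⋃ i ≤ N, E i) := by
  have hne : Nonempty X.X := (support_nonempty X).to_type
  let E : ℕ → Set X.X := fun i => Metric.closedBall (TopologicalSpace.denseSeq X.X i) (r / 8)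
  have hU : ⋃ i, E i = Set.univ := by
    rw [Set.eq_univ_iff_forall]
    intro x
    obtain ⟨i, hi⟩ := (TopologicalSpace.denseRange_denseSeq X.X).exists_dist_lt x
      (show (0 : ℝ) < r / 8 by positivity)
    exact Set.mem_iUnion.2 ⟨i, hi.le⟩
  have hlim := tendsto_measure_iUnion_accumulate (μ := X.μ) (f := E)
  rw [hU, measure_univ] at hlim
  have h34 : ENNReal.ofReal (3 / 4) < 1 := by
    rw [← ENNReal.ofReal_one]
    exact (ENNReal.ofReal_lt_ofReal_iff one_pos).2 (by norm_num)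
  obtain ⟨N, hN⟩ := (hlim.eventually (lt_mem_nhds h34)).exists
  refine ⟨E, N, fun i => Metric.isClosed_closedBall.measurableSet, ?_, ?_⟩
  · intro i x hx y hy
    have h1 : dist x (TopologicalSpace.denseSeq X.X i) ≤ r / 8 := hx
    have h2 : dist y (TopologicalSpace.denseSeq X.X i) ≤ r / 8 := hy
    have := dist_triangle_right x y (TopologicalSpace.denseSeq X.X i)
    linarith
  · rw [Measure.real]
    exact (ENNReal.ofReal_lt_iff_lt_toReal (by norm_num) (measure_ne_top _ _)).1 hN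

lemma Ls_empty (r : ℝ) (hr : 0 < r) {ι : Type 1} [Preorder ι] (A : ι → Closeds) (c : ι → ℝ)
    (hA : ∀ i, A i = SS (c i) r) (hc : ∀ δ : ℝ, 0 < δ → ∃ i, ∀ j, i ≤ j → c j ≤ δ)
    (x : MM) : x ∉ Ls A := by
  intro hx
  induction x using Quot.inductionOn with
  | h X =>
    obtain ⟨E, N, hE, hd, hm⟩ := exists_cover X r hr
    obtain ⟨i, hi⟩ := hc (1 / (4 * (N + 1))) (by positivity)
    obtain ⟨j, hj, a, ha, hb⟩ := hx (ENNReal.ofReal (min (1 / 4) (r / 4)))
      (by rw [ENNReal.ofReal_pos]; positivity) i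
    obtain ⟨ε', h1, h2⟩ := exists_of_box_lt hb
    obtain ⟨B, hB, hR, -⟩ := boxRel_relF' h2
    obtain ⟨F, hF, hmF, hdF⟩ := hR E hE
    have hε := lt_of_coe_lt h1
    have hε1 := hε.trans_le (min_le_left _ _)
    have hε2 := hε.trans_le (min_le_right _ _)
    rw [hA, ← hB] at ha
    have hP : PP (c j) r B := ha.2
    have hcj := hi j hj
    have h3 : ∀ i, B.μ.real (F i) ≤ c j := fun i =>
      hP (F i) (hF i) (r / 4 + ε') (by linarith) (hdF i _ (hd i))
    have h4 : B.μ.real (⋃ i ≤ N, F i) ≤ (N + 1) * (1 / (4 * (N + 1))) := by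
      have h5 : (⋃ i ≤ N, F i) = ⋃ i ∈ Finset.range (N + 1), F i := by
        ext z
        simp
      rw [h5]
      refine (measureReal_biUnion_finset_le _ _).trans ?_
      refine (Finset.sum_le_sum (fun i _ => (h3 i).trans hcj)).trans ?_
      simp
    have h6 : ((N : ℝ) + 1) * (1 / (4 * (N + 1))) = 1 / 4 := by
      field_simp
    have h7 := hmF N
    linarith

lemma Ls_star {ι : Type 1} [Preorder ι] (A : ι → Closeds) (c r : ι → ℝ)
    (hA : ∀ i, A i = SS (c i) (r i)) (hr : ∀ δ : ℝ, 0 < δ → ∃ i, ∀ j, i ≤ j → r j ≤ δ)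
    (x : MM) (hx : x ∈ Ls A) : DM 0 x := by
  refine DM_mono_lim ?_
  intro δ hδ
  refine DM_closed (S := {a | DM δ a}) (fun a ha => ha) x ?_
  intro ε hε
  obtain ⟨i, hi⟩ := hr δ hδ
  obtain ⟨j, hj, a, ha, hb⟩ := hx ε hε i
  refine ⟨a, ?_, hb⟩
  rw [hA] at ha
  have h1 : DM (r j) a := ha.1
  change DM δ a
  induction a using Quot.inductionOn with
  | h X =>
    intro η hη
    obtain ⟨E, hE, hm, hd⟩ := h1 η hη
    exact ⟨E, hE, hm, fun x hx y hy => (hd x hx y hy).trans (by have := hi j hj; linarith)⟩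

lemma notMem_Ls (r : ℝ) (hr : 0 < r) (x : MM) :
    x ∉ Ls (fun n : ULift.{1} ℕ => SS (cc n.down) r) := by
  apply Ls_empty r hr _ (fun n : ULift.{1} ℕ => cc n.down)
  · intro i
    rfl
  · intro δ hδ
    obtain ⟨n, hn⟩ := exists_cc δ hδ
    refine ⟨⟨n⟩, ?_⟩
    intro m hm
    exact (hn m.down hm).le

lemma KP_empty (r : ℝ) (hr : 0 < r) :
    KP (fun n : ULift.{1} ℕ => SS (cc n.down) r) EE := by
  constructor
  · intro x hx
    exact absurd hx (notMem_Ls r hr x)
  · intro x hx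
    exact absurd hx (Set.notMem_empty x)

lemma DM_of_mem_Ls (f : ℕ → ℕ) (x : MM)
    (hx : x ∈ Ls (fun k : ULift.{1} ℕ => SS (cc (f k.down)) (cc k.down))) : DM 0 x := by
  apply Ls_star (fun k : ULift.{1} ℕ => SS (cc (f k.down)) (cc k.down))
    (fun k : ULift.{1} ℕ => cc (f k.down)) (fun k : ULift.{1} ℕ => cc k.down)
  · intro i
    rfl
  · intro δ hδ
    obtain ⟨n, hn⟩ := exists_cc δ hδ
    refine ⟨⟨n⟩, ?_⟩
    intro m hm
    exact (hn m.down hm).le
  · exact hx

lemma KP_star (f : ℕ → ℕ) :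
    KP (fun k : ULift.{1} ℕ => SS (cc (f k.down)) (cc k.down)) ST := by
  constructor
  · intro x hx
    exact DM_of_mem_Ls f x hx
  · intro x hx ε hε
    have hx' : x = st := eq_star_of_DM hx
    obtain ⟨δ, hδ, hδε⟩ : ∃ δ : ℝ, 0 < δ ∧ ENNReal.ofReal δ ≤ ε := by
      rcases eq_or_ne ε ⊤ with rfl | h
      · exact ⟨1, one_pos, le_top⟩
      · exact ⟨ε.toReal, ENNReal.toReal_pos hε.ne' h, ENNReal.ofReal_toReal_le⟩
    obtain ⟨n, hn⟩ := exists_cc δ hδ
    refine ⟨⟨n⟩, ?_⟩
    intro j hj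
    refine ⟨_, spr_mem (f j.down) (cc j.down) (cc_pos _), ?_⟩
    rw [hx']
    refine (box_spr _ _ _).trans_lt (lt_of_lt_of_le ?_ hδε)
    exact (ENNReal.ofReal_lt_ofReal_iff hδ).2 (hn j.down hj)

lemma ne_EE : ST ≠ EE := by
  intro h
  have h1 := st_mem_ST
  rw [h] at h1
  exact h1

lemma no_sep (U V : Set Closeds) (hU : IsOpen[tauK] U) (hV : IsOpen[tauK] V) (hEU : EE ∈ U)
    (hSV : ST ∈ V) : (U ∩ V).Nonempty := by
  rw [tauK_eq] at hU hV
  have h1 : ∀ k : ℕ, ∃ n : ℕ, SS (cc n) (cc k) ∈ U := by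
    intro k
    obtain ⟨i, hi⟩ := hU _ _ _ (KP_empty (cc k) (cc_pos k)) hEU
    exact ⟨i.down, hi i le_rfl⟩
  choose f hf using h1
  obtain ⟨i, hi⟩ := hV _ _ _ (KP_star f) hSV
  exact ⟨_, hf i.down, hi i le_rfl⟩

/-- The topologization `tauK` of Kuratowski-Painlevé convergence on the box-closed sets of
mm-spaces: it is the finest topology in which all convergent nets converge, and it is neither
Hausdorff nor metrizable: the empty set and the set consisting of the one-point space have no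
disjoint open neighbourhoods. -/
theorem result :
    IsLeast {t : TopologicalSpace Closeds | AllConverge t} tauK ∧
    (∃ A B : Closeds, A.1 = ∅ ∧ B.1 = {st} ∧
      ∀ U V : Set Closeds, IsOpen[tauK] U → IsOpen[tauK] V → A ∈ U → B ∈ V → (U ∩ V).Nonempty) ∧
    ¬ @T2Space Closeds tauK ∧ ¬ @TopologicalSpace.MetrizableSpace Closeds tauK := by
  have hT2 : ¬ @T2Space Closeds tauK := by
    intro h
    obtain ⟨V, U, hV, hU, hSV, hEU, hd⟩ := (@t2_separation Closeds tauK h ST EE ne_EE)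
    obtain ⟨z, hz⟩ := no_sep U V hU hV hEU hSV
    exact (Set.disjoint_left.1 hd) hz.2 hz.1
  refine ⟨⟨?_, fun t ht => sInf_le ht⟩, ⟨EE, ST, rfl, ?_, no_sep⟩, hT2, ?_⟩
  · change AllConverge tauK
    rw [tauK_eq]
    exact tau0_conv
  · ext x
    constructor
    · intro hx
      exact eq_star_of_DM hx
    · intro hx
      have hx' : x = st := hx
      rw [hx']
      exact st_mem_ST
  · intro h
    exact hT2 (@TopologicalSpace.t2Space_of_metrizableSpace Closeds tauK h)

end Pool.Agent.Results.MP_3b4475_gt.NotHausdorff
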